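import Pool.Agent.Helper15.T4.Stmts

set_option autoImplicit false

open Finset MeasureTheory Filter Topology

namespace Pool.Agent.Helper90.T4

open Pool.Agent.Helper15.T4

theorem m0_T (x y z : Unit → ℝ) : m0.T x y z = ((x () * y () * z () : ℝ) : ℂ) := by
  simp [Mdl.T, Mdl.l, m0]

theorem nsq_unit (x : Unit → ℝ) : nsq x = x () ^ 2 := by simp [nsq]

theorem PK0 (hM : ST_MPK) : ST_PK0 := by
  unfold ST_PK0
  refine hM Unit Unit m0 (fun _ => 1) 1 ?_ ?_ one_pos ?_ ?_ ?_ ?_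
  · intro a b c
    exact ⟨rfl, rfl⟩
  · simp [nsq]
  · intro h
    rw [m0_T]
    simp
  · intro x
    have : m0.P x = ((x () * x () * x () : ℝ) : ℂ) := m0_T x x x
    rw [this, Complex.norm_real, nsq_unit, Real.norm_eq_abs, sq_abs]
    apply le_of_eq
    ring
  · intro x _
    refine ⟨x (), ?_⟩
    funext i
    simp
  · refine ⟨6, by norm_num, fun h => ?_⟩
    unfold QT
    rw [m0_T, nsq_unit]
    have : (3 * ((h () ^ 2 : ℝ) : ℂ) - 6 * (((1 : ℝ) * h () * h () : ℝ) : ℂ) / ((1 : ℝ) : ℂ) +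
        9 * ((∑ i : Unit, (1 : ℝ) * h i : ℝ) : ℂ) ^ 2) = ((6 * h () ^ 2 : ℝ) : ℂ) := by
      simp only [Finset.univ_unique, PUnit.default_eq_unit, Finset.sum_singleton]
      push_cast
      ring
    rw [this, Complex.ofReal_re]

end Pool.Agent.Helper90.T4
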