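import Pool.Agent.Helper15.T4.Stmts

set_option autoImplicit false

open Finset MeasureTheory Filter Topology

namespace Pool.Agent.Helper90.T4

open Pool.Agent.Helper15.T4

theorem ROWB : ST_ROWB := by
  intro ι _ x μ hμ
  set y : Fin 3 → ι → ℝ := fun j => x j - μ with hy
  have hx : ∀ j, x j = y j + μ := fun j => by simp [hy]
  have hsum : ∀ i, y 0 i + y 1 i + y 2 i = 0 := by
    intro i
    have := hμ i
    rw [Fin.sum_univ_three] at this
    simp only [hy, Pi.sub_apply]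
    linarith
  -- sums
  have h2 : ∀ i, y 2 i = - y 0 i - y 1 i := fun i => by linarith [hsum i]
  set s : ℝ := ∑ i, y 0 i * y 1 i with hs
  have hn2 : nsq (y 2) = nsq (y 0) + nsq (y 1) + 2 * s := by
    simp only [nsq, hs, Finset.mul_sum, ← Finset.sum_add_distrib]
    refine Finset.sum_congr rfl fun i _ => ?_
    rw [h2 i]; ring
  have hX : ∑ j, nsq (x j) = 3 * nsq μ + (nsq (y 0) + nsq (y 1) + nsq (y 2)) := by
    rw [Fin.sum_univ_three]
    simp only [nsq, Finset.mul_sum, ← Finset.sum_add_distrib]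
    refine Finset.sum_congr rfl fun i _ => ?_
    rw [hx 0, hx 1, hx 2]
    simp only [Pi.add_apply]
    rw [h2 i]; ring
  have hcs : s ^ 2 ≤ nsq (y 0) * nsq (y 1) := by
    simp only [nsq, hs]
    exact Finset.sum_mul_sq_le_sq_mul_sq _ _ _
  have hn : ∀ z : ι → ℝ, 0 ≤ nsq z := fun z => Finset.sum_nonneg fun i _ => sq_nonneg _
  have hL : ∑ j, (2 * nsq μ + 8 / 5 * nsq (x j - μ)) ^ 2 =
      (2 * nsq μ + 8 / 5 * nsq (y 0)) ^ 2 + (2 * nsq μ + 8 / 5 * nsq (y 1)) ^ 2 +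
        (2 * nsq μ + 8 / 5 * nsq (y 2)) ^ 2 := by
    rw [Fin.sum_univ_three]
  rw [hL, hX]
  have a0 := hn (y 0)
  have a1 := hn (y 1)
  have a2 := hn (y 2)
  have am := hn μ
  have key : nsq (y 0) ^ 2 + nsq (y 1) ^ 2 + nsq (y 2) ^ 2 ≤
      1 / 2 * (nsq (y 0) + nsq (y 1) + nsq (y 2)) ^ 2 := by
    rw [hn2]
    nlinarith [hcs]
  have diff : 4 / 3 * (3 * nsq μ + (nsq (y 0) + nsq (y 1) + nsq (y 2))) ^ 2 -
      ((2 * nsq μ + 8 / 5 * nsq (y 0)) ^ 2 + (2 * nsq μ + 8 / 5 * nsq (y 1)) ^ 2 +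
        (2 * nsq μ + 8 / 5 * nsq (y 2)) ^ 2) ≥
      8 / 5 * nsq μ * (nsq (y 0) + nsq (y 1) + nsq (y 2)) +
        4 / 75 * (nsq (y 0) + nsq (y 1) + nsq (y 2)) ^ 2 := by
    nlinarith [key]
  refine ⟨?_, ?_⟩
  · have : 0 ≤ nsq μ * (nsq (y 0) + nsq (y 1) + nsq (y 2)) := by positivity
    nlinarith [sq_nonneg (nsq (y 0) + nsq (y 1) + nsq (y 2))]
  · intro he
    have hz : nsq (y 0) + nsq (y 1) + nsq (y 2) = 0 := by
      have h1 : 0 ≤ nsq μ * (nsq (y 0) + nsq (y 1) + nsq (y 2)) := by positivity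
      have h3 : (nsq (y 0) + nsq (y 1) + nsq (y 2)) ^ 2 ≤ 0 := by nlinarith
      nlinarith [sq_nonneg (nsq (y 0) + nsq (y 1) + nsq (y 2))]
    have hz' : ∀ j, nsq (y j) = 0 := by
      intro j
      fin_cases j
      · show nsq (y 0) = 0
        linarith
      · show nsq (y 1) = 0
        linarith
      · show nsq (y 2) = 0
        linarith
    intro j
    have h4 : ∀ i, y j i = 0 := by
      intro i
      have h5 := (Finset.sum_eq_zero_iff_of_nonneg (fun i _ => sq_nonneg (y j i))).1 (hz' j) i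
        (Finset.mem_univ i)
      exact pow_eq_zero_iff (two_ne_zero) |>.1 h5
    funext i
    have := h4 i
    simp only [hy, Pi.sub_apply] at this
    linarith

end Pool.Agent.Helper90.T4
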