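import Pool.Agent.Helper15.T4.Stmts

set_option autoImplicit false

open Finset MeasureTheory Filter Topology

namespace Pool.Agent.Helper90.T4

open Pool.Agent.Helper15.T4

theorem isMat_empty {H : Type} [Fintype H] : IsMat (∅ : Finset (Sym2 H)) := by
  refine ⟨fun e he => absurd he (Finset.notMem_empty _), fun e he => absurd he (Finset.notMem_empty _),
    fun h hh => ?_⟩
  simp [cov] at hh

/-- The total number of colourings is a Gaussian moment. -/
theorem sum_Xc (hS : ST_SUMX) (hP : ST_PSI0) (hX : ST_XC) (n : ℕ) :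
    ∑ M ∈ PM (univ : Finset (HE n)), (Xc M : ℂ) = GI (fun x => m1.P x ^ n) := by
  have h1 := hS L1 L1 m1 n ∅ isMat_empty
  have h2 : m1.Psi (∅ : Finset (Sym2 (HE n))) = fun x => m1.P x ^ n := by
    funext x
    exact hP L1 L1 m1 n x
  rw [h2] at h1
  rw [← h1]
  have h3 : (PM (univ : Finset (HE n))).filter (fun M => (∅ : Finset (Sym2 (HE n))) ⊆ M) =
      PM (univ : Finset (HE n)) := by
    apply Finset.filter_true_of_mem
    intro M _
    exact Finset.empty_subset _
  rw [h3]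
  exact Finset.sum_congr rfl fun M _ => ((hX n M).2.1).symm

theorem S1A (hS : ST_SUMX) (hP : ST_PSI0) (hX : ST_XC) (hA : ST_ASY) (hK : ST_PK1) (hG : ST_GSS) :
    ST_S1A := by
  refine ⟨2 * (((3 / (2 * Real.pi)) ^ ((Fintype.card L1 : ℝ) / 2) : ℝ) : ℂ) * GG (QT m1.T u1 q1),
    ?_, ?_, rfl⟩
  · have hpi := Real.pi_pos
    have h1 : GG (QT m1.T u1 q1) ≠ 0 := by
      intro h0
      have h2 := hG.2.1
      rw [h0] at h2
      simp only [norm_zero] at h2
      have h3 : (0 : ℝ) < (2 * Real.pi) ^ 12 / (6 * 3 ^ 11 * (343 / 256)) := by positivity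
      rw [← h2] at h3
      norm_num at h3
    have h4 : (((3 / (2 * Real.pi)) ^ ((Fintype.card L1 : ℝ) / 2) : ℝ) : ℂ) ≠ 0 := by
      have : (0 : ℝ) < (3 / (2 * Real.pi)) ^ ((Fintype.card L1 : ℝ) / 2) :=
        Real.rpow_pos_of_pos (by positivity) _
      exact_mod_cast this.ne'
    exact mul_ne_zero (mul_ne_zero two_ne_zero h4) h1
  · have h := hA L1 m1.P u1 q1 (QT m1.T u1 q1) hK 0 0 (fun _ => 1) (by norm_num) continuous_const
      (fun s x => by simp)
    have e1 : (2 * (((3 / (2 * Real.pi)) ^ ((Fintype.card L1 : ℝ) / 2) : ℝ) : ℂ) *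
        GG (QT m1.T u1 q1) * 1 / (q1 : ℂ) ^ 0) =
        2 * (((3 / (2 * Real.pi)) ^ ((Fintype.card L1 : ℝ) / 2) : ℝ) : ℂ) * GG (QT m1.T u1 q1) := by
      simp
    rw [e1] at h
    refine h.congr fun N => ?_
    rw [sum_Xc hS hP hX (2 * N)]
    simp

end Pool.Agent.Helper90.T4
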